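import Pool.Agent.H41.Eis.Edges
import Pool.Agent.H41.Eis.Divisor

/-!
The residue of `Ω(3k²+3k+1)` modulo `3`: the finite configuration.

Rows `(px i, py i)` and columns `(ra j, 1)` are vectors of the lattice `ℤ z₀ + ℤ w₀`, where
`(z₀, w₀)` is a unimodular pair of Eisenstein integers. The determinant `dd i j` of a row and a
column is the norm of the Eisenstein integer `de i j`, which divides both vectors as soon as
`(z₀, w₀)` satisfies congruences modulo `m3`. Dividing gives a unimodular pair.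
-/

set_option autoImplicit false

namespace Pool.Agent.H55.OmegaThree

open Pool.Agent.H41.Eis Finset

def px : Fin 6 → ℤ := ![1, 1, 199, 271, 1, 199]
def py : Fin 6 → ℤ := ![0, -2, 22, 30, -78, 18]
def ra : Fin 3 → ℤ := ![0, 6, 9]
def dd (i : Fin 6) (j : Fin 3) : ℤ := px i - py i * ra j
def de : Fin 6 → Fin 3 → ℤ × ℤ :=
  ![![(1,0), (1,0), (1,0)],
    ![(1,0), (-4,1), (-5,3)],
    ![(-15,13), (-9,7), (1,0)],
    ![(-19,10), (-11,6), (1,0)],
    ![(1,0), (-23,3), (-29,6)],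
    ![(-15,13), (-11,6), (-7,4)]]
/-- The number of prime factors of `dd i j`. -/
def gg : Fin 6 → Fin 3 → ℕ :=
  ![![0,0,0], ![0,1,1], ![1,1,0], ![1,2,0], ![0,2,2], ![1,2,1]]
def tau : ℤ := 671390547845
def kap : ℤ := 669523142100
def m3 : ℤ := 693449983317

lemma facts : ∀ i j, nrm (de i j) = dd i j ∧ 0 < dd i j ∧
    dd i j ∣ (de i j).1 + (de i j).2 * tau ∧ dd i j ∣ tau^2 - tau + 1 ∧
    dd i j ∣ px i + py i * kap ∧ dd i j ∣ ra j + kap ∧ dd i j ∣ m3 ∧ ¬ (3:ℤ) ∣ dd i j := by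
  decide

lemma facts3 : (3:ℤ) ∣ m3 ∧ (3:ℤ) ∣ tau + 1 ∧ (3:ℤ) ∣ kap ∧ (∀ i, ¬ (3:ℤ) ∣ px i) ∧
    (∀ j, (3:ℤ) ∣ ra j) := by
  decide

/-- No colouring of the configuration avoids a residue. -/
lemma uncolourable : ∀ Y : Fin 3 → ZMod 3, ∃ i, ∀ c : ZMod 3, ∃ j, Y j - 2 * (gg i j : ZMod 3) = c := by
  decide

lemma div_lemma (δ : ℤ × ℤ) (D τ u v : ℤ) (hD : nrm δ = D) (hD0 : D ≠ 0)
    (h1 : D ∣ δ.1 + δ.2 * τ) (h2 : D ∣ τ^2 - τ + 1) (h3 : D ∣ u + v * τ) :
    ∃ z, emul δ z = (u, v) := by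
  obtain ⟨t, ht⟩ := h1
  obtain ⟨q, hq⟩ := h2
  obtain ⟨s, hs⟩ := h3
  have hz1 : D * (D*s*t - s*δ.2*τ - v*τ*t + s*δ.2 + v*δ.2*q) = u*(δ.1+δ.2) + v*δ.2 := by
    have e1 : δ.1 = D*t - δ.2*τ := by linarith
    have e2 : u = D*s - v*τ := by linarith
    rw [e1, e2]
    linear_combination (-(v*δ.2)) * hq
  have hz2 : D * (-(s*δ.2) + v*t) = -(u*δ.2) + v*δ.1 := by
    have e1 : δ.1 = D*t - δ.2*τ := by linarith
    have e2 : u = D*s - v*τ := by linarith
    rw [e1, e2]; ring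
  refine ⟨(D*s*t - s*δ.2*τ - v*τ*t + s*δ.2 + v*δ.2*q, -(s*δ.2) + v*t), ?_⟩
  generalize D*s*t - s*δ.2*τ - v*τ*t + s*δ.2 + v*δ.2*q = z1 at hz1
  generalize -(s*δ.2) + v*t = z2 at hz2
  simp only [nrm] at hD
  simp only [emul, Prod.mk.injEq]
  constructor
  · apply mul_left_cancel₀ hD0
    linear_combination δ.1 * hz1 - δ.2 * hz2 + u * hD
  · apply mul_left_cancel₀ hD0
    linear_combination δ.1 * hz2 + δ.2 * hz1 + δ.2 * hz2 + v * hD

lemma edet_emul (δ z w : ℤ × ℤ) : edet (emul δ z) (emul δ w) = nrm δ * edet z w := by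
  simp only [edet, emul, nrm]; ring

/-- The unimodular pairs of the configuration. -/
lemma base (C E A B : ℤ) (hdet : C * B - E * A = 1) (hC : m3 ∣ C - 1) (hE : m3 ∣ E)
    (hAB : m3 ∣ A + B * tau - kap) (i : Fin 6) (j : Fin 3) :
    ∃ z w : ℤ × ℤ, emul (de i j) z = (px i * C + py i * A, px i * E + py i * B) ∧
      emul (de i j) w = (ra j * C + A, ra j * E + B) ∧ edet z w = 1 ∧ ¬ TypeB z ∧ TypeB w := by
  obtain ⟨f1, f2, f3, f4, f5, f6, f7, f8⟩ := facts i j
  obtain ⟨k1, k2, k3, k4, k5⟩ := facts3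
  have hC' : dd i j ∣ C - 1 := f7.trans hC
  have hE' : dd i j ∣ E := f7.trans hE
  have hAB' : dd i j ∣ A + B * tau - kap := f7.trans hAB
  have hz : dd i j ∣ (px i * C + py i * A) + (px i * E + py i * B) * tau := by
    have : (px i * C + py i * A) + (px i * E + py i * B) * tau =
        px i * (C - 1) + px i * tau * E + py i * (A + B * tau - kap) + (px i + py i * kap) := by
      ring
    rw [this]
    exact dvd_add (dvd_add (dvd_add (hC'.mul_left _) (hE'.mul_left _)) (hAB'.mul_left _)) f5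
  have hw : dd i j ∣ (ra j * C + A) + (ra j * E + B) * tau := by
    have : (ra j * C + A) + (ra j * E + B) * tau =
        ra j * (C - 1) + ra j * tau * E + (A + B * tau - kap) + (ra j + kap) := by
      ring
    rw [this]
    exact dvd_add (dvd_add (dvd_add (hC'.mul_left _) (hE'.mul_left _)) hAB') f6
  obtain ⟨z, hz'⟩ := div_lemma (de i j) (dd i j) tau _ _ f1 f2.ne' f3 f4 hz
  obtain ⟨w, hw'⟩ := div_lemma (de i j) (dd i j) tau _ _ f1 f2.ne' f3 f4 hw
  refine ⟨z, w, hz', hw', ?_, ?_, ?_⟩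
  · have h := edet_emul (de i j) z w
    rw [hz', hw', f1] at h
    simp only [edet] at h ⊢
    have h2 : (px i * C + py i * A) * (ra j * E + B) - (px i * E + py i * B) * (ra j * C + A) =
        dd i j * (C * B - E * A) := by
      simp only [dd]; ring
    rw [h2, hdet] at h
    exact (mul_left_cancel₀ f2.ne' h).symm
  · intro hB
    have hC3 : (3:ℤ) ∣ C - 1 := k1.trans hC
    have hE3 : (3:ℤ) ∣ E := k1.trans hE
    have hAB3 : (3:ℤ) ∣ A + B * tau - kap := k1.trans hAB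
    obtain ⟨b, hb⟩ := hB
    have e1 := congrArg Prod.fst hz'
    have e2 := congrArg Prod.snd hz'
    simp only [emul] at e1 e2
    refine k4 i ?_
    have h3 : (3:ℤ) ∣ (px i * C + py i * A) - (px i * E + py i * B) := by
      rw [← e1, ← e2]
      refine ⟨(de i j).1 * b - (de i j).2 * b - (de i j).2 * z.2, ?_⟩
      linear_combination ((de i j).1 - (de i j).2) * hb
    have h4 : px i = ((px i * C + py i * A) - (px i * E + py i * B)) - px i * (C - 1) + px i * E
        - py i * (A + B * tau - kap) - py i * kap + py i * B * (tau + 1) := by ring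
    rw [h4]
    exact dvd_add (dvd_sub (dvd_sub (dvd_add (dvd_sub h3 (hC3.mul_left _)) (hE3.mul_left _))
      (hAB3.mul_left _)) (k3.mul_left _)) (k2.mul_left _)
  · have hAB3 : (3:ℤ) ∣ A + B * tau - kap := k1.trans hAB
    have e1 := congrArg Prod.fst hw'
    have e2 := congrArg Prod.snd hw'
    simp only [emul] at e1 e2
    have h5 : (3:ℤ) ∣ (ra j * C + A) - (ra j * E + B) := by
      have h4 : (ra j * C + A) - (ra j * E + B) = ra j * (C - E) + (A + B * tau - kap) + kap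
        - B * (tau + 1) := by ring
      rw [h4]
      exact dvd_sub (dvd_add (dvd_add ((k5 j).mul_right _) hAB3) k3) (k2.mul_left _)
    -- `(δ₁-δ₂)(w₁-w₂) ≡ 0 (mod 3)`
    have h6 : (3:ℤ) ∣ ((de i j).1 - (de i j).2) * (w.1 - w.2) := by
      have : ((de i j).1 - (de i j).2) * (w.1 - w.2) =
          ((ra j * C + A) - (ra j * E + B)) + 3 * ((de i j).2 * w.2) := by
        rw [← e1, ← e2]; ring
      rw [this]
      exact dvd_add h5 (Dvd.intro _ rfl)
    rcases Int.Prime.dvd_mul' (p := 3) Nat.prime_three (by exact_mod_cast h6) with h | h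
    · exfalso
      apply f8
      rw [← f1]
      obtain ⟨q, hq⟩ := h
      refine ⟨3*q^2 + 3*q*(de i j).2 + (de i j).2^2, ?_⟩
      have : (de i j).1 = (de i j).2 + 3 * q := by push_cast at hq; linarith
      simp only [nrm]; rw [this]; ring
    · exact_mod_cast h

end Pool.Agent.H55.OmegaThree
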