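import Pool.Agent.H55.OmegaThree.Cert

/-!
Every unimodular base pair of the configuration produces, for each residue `r` modulo `3`, an
integer `k` with `Ω(3k²+3k+1) ≡ r`.
-/

set_option autoImplicit false

namespace Pool.Agent.H55.OmegaThree

open Pool.Agent.H41.Eis Finset
open ArithmeticFunction (cardFactors cardFactors_mul cardFactors_apply_prime cardFactors_one)

lemma omega_dd : ∀ i j, cardFactors (dd i j).natAbs = gg i j := by
  have h13 : cardFactors 13 = 1 := cardFactors_apply_prime (by norm_num)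
  have h19 : cardFactors 19 = 1 := cardFactors_apply_prime (by norm_num)
  have h199 : cardFactors 199 = 1 := cardFactors_apply_prime (by norm_num)
  have h67 : cardFactors 67 = 1 := cardFactors_apply_prime (by norm_num)
  have h271 : cardFactors 271 = 1 := cardFactors_apply_prime (by norm_num)
  have h37 : cardFactors 37 = 1 := cardFactors_apply_prime (by norm_num)
  have h7 : cardFactors 7 = 1 := cardFactors_apply_prime (by norm_num)
  have h91 : cardFactors 91 = 2 := by
    rw [show (91:ℕ) = 7 * 13 from rfl, cardFactors_mul (by norm_num) (by norm_num), h7, h13]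
  have h469 : cardFactors 469 = 2 := by
    rw [show (469:ℕ) = 7 * 67 from rfl, cardFactors_mul (by norm_num) (by norm_num), h7, h67]
  have h703 : cardFactors 703 = 2 := by
    rw [show (703:ℕ) = 19 * 37 from rfl, cardFactors_mul (by norm_num) (by norm_num), h19, h37]
  intro i j
  fin_cases i <;> fin_cases j <;> simp [dd, px, py, ra, gg, h13, h19, h199, h67, h271, h37, h91, h469, h703]

/-- The first coordinate of `z * conj w`. -/
def xb (b : Bool) (k : ℕ) : ℤ := if b then -(3 * (k:ℤ) + 1) else 3 * (k:ℤ) + 2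

lemma xb_norm (b : Bool) (k : ℕ) : (xb b k)^2 - xb b k + 1 = 3 * (3 * (k:ℤ)^2 + 3 * k + 1) := by
  cases b <;> simp [xb] <;> ring

/-- The link between base pairs and values of `k`. -/
lemma link (C E A B : ℤ) (hdet : C * B - E * A = 1) (hC : m3 ∣ C - 1) (hE : m3 ∣ E)
    (hAB : m3 ∣ A + B * tau - kap) (r : ZMod 3) :
    ∃ (i : Fin 6) (j : Fin 3) (b : Bool) (k : ℕ) (z w : ℤ × ℤ),
      emul (de i j) z = (px i * C + py i * A, px i * E + py i * B) ∧
      emul (de i j) w = (ra j * C + A, ra j * E + B) ∧ emul z (econj w) = (xb b k, -1) ∧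
      nrm z * nrm w = 3 * (3 * (k:ℤ)^2 + 3 * k + 1) ∧
      (cardFactors (3 * k^2 + 3 * k + 1) : ZMod 3) = r := by
  set X : Fin 6 → ZMod 3 := fun i =>
    (cardFactors (nrm (px i * C + py i * A, px i * E + py i * B)).natAbs : ZMod 3) with hX
  set Y : Fin 3 → ZMod 3 := fun j =>
    (cardFactors (nrm (ra j * C + A, ra j * E + B)).natAbs : ZMod 3) with hY
  obtain ⟨i, hi⟩ := uncolourable Y
  obtain ⟨j, hj⟩ := hi (r + 1 - X i)
  obtain ⟨z, w, hz, hw, hzw, hzB, hwB⟩ := base C E A B hdet hC hE hAB i j
  obtain ⟨k, hk, hk2⟩ := mixed_value z w hzw (Or.inr ⟨hzB, hwB⟩)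
  have hzw0 : 0 < nrm z * nrm w := by rw [hk]; positivity
  have hz0 : 0 < nrm z := by
    rcases (nrm_nonneg z).lt_or_eq with h | h
    · exact h
    · rw [← h] at hzw0; simp at hzw0
  have hw0 : 0 < nrm w := by
    rcases (nrm_nonneg w).lt_or_eq with h | h
    · exact h
    · rw [← h] at hzw0; simp at hzw0
  obtain ⟨f1, f2, -⟩ := facts i j
  have hXi : X i = (gg i j : ZMod 3) + (cardFactors (nrm z).natAbs : ZMod 3) := by
    have h1 : nrm (px i * C + py i * A, px i * E + py i * B) = dd i j * nrm z := by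
      rw [← hz, nrm_emul, f1]
    rw [hX]
    simp only
    rw [h1, Int.natAbs_mul, cardFactors_mul (by omega) (by omega), omega_dd]
    push_cast; ring
  have hYj : Y j = (gg i j : ZMod 3) + (cardFactors (nrm w).natAbs : ZMod 3) := by
    have h1 : nrm (ra j * C + A, ra j * E + B) = dd i j * nrm w := by
      rw [← hw, nrm_emul, f1]
    rw [hY]
    simp only
    rw [h1, Int.natAbs_mul, cardFactors_mul (by omega) (by omega), omega_dd]
    push_cast; ring
  have h3 : (nrm z).natAbs * (nrm w).natAbs = 3 * (3 * k^2 + 3 * k + 1) := by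
    rw [← Int.natAbs_mul, hk]
    have : (3 * (3 * (k:ℤ)^2 + 3 * k + 1)) = ((3 * (3 * k^2 + 3 * k + 1) : ℕ) : ℤ) := by push_cast; ring
    rw [this, Int.natAbs_natCast]
  have h4 : cardFactors (nrm z).natAbs + cardFactors (nrm w).natAbs =
      1 + cardFactors (3 * k^2 + 3 * k + 1) := by
    rw [← cardFactors_mul (by omega) (by omega), h3, cardFactors_mul (by norm_num) (by omega),
      cardFactors_apply_prime Nat.prime_three]
  have h5 : (cardFactors (nrm z).natAbs : ZMod 3) + (cardFactors (nrm w).natAbs : ZMod 3) =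
      1 + (cardFactors (3 * k^2 + 3 * k + 1) : ZMod 3) := by exact_mod_cast congrArg (Nat.cast : ℕ → ZMod 3) h4
  have h6 : (cardFactors (3 * k^2 + 3 * k + 1) : ZMod 3) = r := by
    rw [hXi, hYj] at hj
    linear_combination hj - h5
  rcases hk2 with h | h
  · exact ⟨i, j, true, k, z, w, hz, hw, by simpa [xb] using h, hk, h6⟩
  · exact ⟨i, j, false, k, z, w, hz, hw, by simpa [xb] using h, hk, h6⟩

/-- The vector `z` determines `(C, E)`. -/
lemma link_inj (i : Fin 6) (j : Fin 3) (x : ℤ) (z w w' : ℤ × ℤ) (C E A B C' E' A' B' : ℤ)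
    (h1 : emul (de i j) z = (px i * C + py i * A, px i * E + py i * B))
    (h2 : emul (de i j) w = (ra j * C + A, ra j * E + B)) (h3 : emul z (econj w) = (x, -1))
    (h1' : emul (de i j) z = (px i * C' + py i * A', px i * E' + py i * B'))
    (h2' : emul (de i j) w' = (ra j * C' + A', ra j * E' + B'))
    (h3' : emul z (econj w') = (x, -1)) : C = C' ∧ E = E' := by
  have hz0 : z ≠ 0 := by
    rintro rfl
    have := congrArg Prod.snd h3
    simp [emul] at this
  have hz : 0 < nrm z := nrm_pos hz0
  -- `w = w'`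
  have hww : w = w' := by
    have e : emul z (econj w) = emul z (econj w') := h3.trans h3'.symm
    have e1 := congrArg Prod.fst e
    have e2 := congrArg Prod.snd e
    simp only [emul, econj] at e1 e2
    simp only [nrm] at hz
    have g2 : (z.1^2 + z.1*z.2 + z.2^2) * (w.2 - w'.2) = 0 := by
      linear_combination z.2 * e1 - z.1 * e2
    have g1 : (z.1^2 + z.1*z.2 + z.2^2) * (w.1 - w'.1) = 0 := by
      linear_combination z.1 * e1 + (z.1 + z.2) * e2
    refine Prod.ext ?_ ?_
    · rcases mul_eq_zero.1 g1 with h | h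
      · omega
      · omega
    · rcases mul_eq_zero.1 g2 with h | h
      · omega
      · omega
  subst hww
  have hd := (facts i j).2.1
  have a1 := h1.symm.trans h1'
  have a2 := h2.symm.trans h2'
  simp only [Prod.mk.injEq] at a1 a2
  obtain ⟨b1, b2⟩ := a1
  obtain ⟨c1, c2⟩ := a2
  constructor
  · apply mul_left_cancel₀ hd.ne'
    simp only [dd]
    linear_combination b1 - py i * c1
  · apply mul_left_cancel₀ hd.ne'
    simp only [dd]
    linear_combination b2 - py i * c2

end Pool.Agent.H55.OmegaThree
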