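import Pool.Agent.H55.OmegaThree.Pairs

/-!
Counting the `k` with `Ω(3k²+3k+1)` in a given class modulo `3`.
-/

set_option autoImplicit false

namespace Pool.Agent.H55.OmegaThree

open Pool.Agent.H41.Eis Finset
open ArithmeticFunction (cardFactors)

/-- The `k ≤ K` in the residue class `r`. -/
noncomputable def resSet (r : ZMod 3) (K : ℕ) : Finset ℕ :=
  (Finset.range (K + 1)).filter (fun k => (cardFactors (3 * k^2 + 3 * k + 1) : ZMod 3) = r)

/-- The size constant. -/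
def K0 : ℕ := (271 + 78 * 693449983317)^2 * (1 + MM)^2

lemma K0_eq : ((K0 : ℕ) : ℤ) = K1^2 * (1 + (MM:ℤ))^2 := by decide

lemma K0_pos : 0 < K0 := by decide

/-- Data attached to a parameter. -/
def Data (p : ℕ × ℕ) (i : Fin 6) (j : Fin 3) (b : Bool) (k : ℕ) (z : ℤ × ℤ) : Prop :=
  ∃ (w : ℤ × ℤ) (A B : ℤ),
    emul (de i j) z = (px i * (1 + MM * p.1 : ℤ) + py i * A, px i * (MM * p.2 : ℤ) + py i * B) ∧
    emul (de i j) w = (ra j * (1 + MM * p.1 : ℤ) + A, ra j * (MM * p.2 : ℤ) + B) ∧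
    emul z (econj w) = (xb b k, -1)

lemma exists_data (r : ZMod 3) (L : ℕ) (p : ℕ × ℕ) (hp : p ∈ good L) :
    ∃ t : (Fin 6 × Fin 3 × Bool × ℕ) × (ℤ × ℤ),
      Data p t.1.1 t.1.2.1 t.1.2.2.1 t.1.2.2.2 t.2 ∧ t.1.2.2.2 ∈ resSet r (K0 * L^2) := by
  obtain ⟨hp1, hcop⟩ := Finset.mem_filter.1 hp
  obtain ⟨hc, he⟩ := Finset.mem_product.1 hp1
  obtain ⟨hc1, hcL⟩ := Finset.mem_Icc.1 hc
  obtain ⟨he1, heL⟩ := Finset.mem_Icc.1 he
  have hMM : 0 < MM := by decide
  have hm3 : (0:ℤ) < m3 := by decide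
  have hc' : (1:ℤ) ≤ p.1 := by exact_mod_cast hc1
  have he' : (1:ℤ) ≤ p.2 := by exact_mod_cast he1
  have hcL' : (p.1:ℤ) ≤ L := by exact_mod_cast hcL
  have heL' : (p.2:ℤ) ≤ L := by exact_mod_cast heL
  have hMM' : (0:ℤ) < MM := by exact_mod_cast hMM
  have hL1 : (1:ℤ) ≤ L := hc'.trans hcL'
  have hcopZ : IsCoprime (1 + MM * p.1 : ℤ) (MM * p.2 : ℤ) := by
    have h1 : IsCoprime (1 + MM * p.1 : ℤ) (p.2 : ℤ) := by
      have := Nat.isCoprime_iff_coprime.2 hcop
      push_cast at this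
      exact this
    have h2 : IsCoprime (1 + MM * p.1 : ℤ) (MM : ℤ) := ⟨1, -p.1, by ring⟩
    exact h2.mul_right h1
  have hCm : m3 ∣ (1 + MM * p.1 : ℤ) - 1 := by
    rw [MM_m3]; exact ⟨2 * p.1, by ring⟩
  have hEm : m3 ∣ (MM * p.2 : ℤ) := by
    rw [MM_m3]; exact ⟨2 * p.2, by ring⟩
  have hCpos : (0:ℤ) < 1 + MM * p.1 := by positivity
  have hEpos : (0:ℤ) < MM * p.2 := by positivity
  obtain ⟨A, B, hdet, hAB, hA0, hA, hB0, hB⟩ := exists_AB _ _ hCpos hEpos hcopZ hCm hEm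
  obtain ⟨i, j, b, k, z, w, h1, h2, h3, h4, h5⟩ := link _ _ A B hdet hCm hEm hAB r
  set H : ℤ := (1 + MM) * L with hH
  have hCH : (1 + MM * p.1 : ℤ) ≤ H := by
    have : (MM:ℤ) * p.1 ≤ MM * L := mul_le_mul_of_nonneg_left hcL' hMM'.le
    rw [hH]; linarith
  have hEH : (MM * p.2 : ℤ) ≤ H := by
    have : (MM:ℤ) * p.2 ≤ MM * L := mul_le_mul_of_nonneg_left heL' hMM'.le
    rw [hH]; linarith
  have hkb := k_bound i j k z w _ _ A B H hCpos.le hCH hEpos.le hEH hA0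
    (hA.trans (mul_le_mul_of_nonneg_left hCH hm3.le)) hB0
    (hB.trans (mul_le_mul_of_nonneg_left hEH hm3.le)) h1 h2 h4
  have hk : k ≤ K0 * L^2 := by
    have : (k:ℤ) ≤ ((K0 * L^2 : ℕ) : ℤ) := by
      refine hkb.trans (le_of_eq ?_)
      rw [Nat.cast_mul, K0_eq, hH]; push_cast; ring
    exact_mod_cast this
  refine ⟨((i, j, b, k), z), ⟨w, A, B, h1, h2, h3⟩, ?_⟩
  exact Finset.mem_filter.2 ⟨Finset.mem_range.2 (by simp only; omega), h5⟩

/-- The counting inequality. -/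
lemma card_good_le (r : ZMod 3) (L Dn : ℕ)
    (hD : ∀ k ≤ K0 * L^2, (3 * (3 * k^2 + 3 * k + 1)).divisors.card ≤ Dn) :
    (good L).card ≤ 6 * Dn * (36 * (resSet r (K0 * L^2)).card) := by
  classical
  have hex : ∀ p : ℕ × ℕ, ∃ t : (Fin 6 × Fin 3 × Bool × ℕ) × (ℤ × ℤ), p ∈ good L →
      (Data p t.1.1 t.1.2.1 t.1.2.2.1 t.1.2.2.2 t.2 ∧ t.1.2.2.2 ∈ resSet r (K0 * L^2)) := by
    intro p
    by_cases hp : p ∈ good L
    · obtain ⟨t, ht⟩ := exists_data r L p hp
      exact ⟨t, fun _ => ht⟩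
    · exact ⟨((0, 0, true, 0), 0), fun h => absurd h hp⟩
  choose f hf using hex
  have hfib : ∀ a ∈ (good L).image (fun p => (f p).1),
      ((good L).filter (fun p => (f p).1 = a)).card ≤ 6 * Dn := by
    intro a ha
    obtain ⟨p0, hp0, hp0a⟩ := Finset.mem_image.1 ha
    obtain ⟨i, j, b, k⟩ := a
    have hk : k ≤ K0 * L^2 := by
      have := (hf p0 hp0).2
      rw [hp0a] at this
      have := Finset.mem_range.1 (Finset.mem_filter.1 this).1
      simp only at this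
      omega
    set S := (good L).filter (fun p => (f p).1 = (i, j, b, k)) with hS
    have hSdata : ∀ p ∈ S, Data p i j b k (f p).2 := by
      intro p hp
      obtain ⟨h1, h2⟩ := Finset.mem_filter.1 hp
      have := (hf p h1).1
      rw [h2] at this
      exact this
    have hinj : Set.InjOn (fun p => (f p).2) (S : Set (ℕ × ℕ)) := by
      intro p hp p' hp' he
      simp only at he
      obtain ⟨w, A, B, h1, h2, h3⟩ := hSdata p (Finset.mem_coe.1 hp)
      obtain ⟨w', A', B', h1', h2', h3'⟩ := hSdata p' (Finset.mem_coe.1 hp')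
      rw [← he] at h1' h3'
      obtain ⟨g1, g2⟩ := link_inj i j _ _ w w' _ _ A B _ _ A' B' h1 h2 h3 h1' h2' h3'
      have hMM : (MM:ℤ) ≠ 0 := by decide
      have e1 : (p.1:ℤ) = p'.1 := mul_left_cancel₀ hMM (by linarith)
      have e2 : (p.2:ℤ) = p'.2 := mul_left_cancel₀ hMM g2
      exact Prod.ext (by exact_mod_cast e1) (by exact_mod_cast e2)
    have h1 : (S.image (fun p => (f p).2)).card ≤
        6 * ((xb b k)^2 - xb b k + 1).natAbs.divisors.card := by
      refine card_divisors_le _ _ ?_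
      intro q hq
      obtain ⟨p, hp, rfl⟩ := Finset.mem_image.1 hq
      obtain ⟨w, A, B, -, -, h3⟩ := hSdata p hp
      exact ⟨econj w, h3⟩
    rw [Finset.card_image_of_injOn hinj] at h1
    have h2 : ((xb b k)^2 - xb b k + 1).natAbs = 3 * (3 * k^2 + 3 * k + 1) := by
      rw [xb_norm]
      have : (3 * (3 * (k:ℤ)^2 + 3 * k + 1)) = ((3 * (3 * k^2 + 3 * k + 1) : ℕ) : ℤ) := by
        push_cast; ring
      rw [this, Int.natAbs_natCast]
    rw [h2] at h1
    exact h1.trans (Nat.mul_le_mul_left 6 (hD k hk))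
  have h1 := Finset.card_le_mul_card_image (s := good L) (f := fun p => (f p).1) (6 * Dn) hfib
  refine h1.trans (Nat.mul_le_mul_left _ ?_)
  have hsub : (good L).image (fun p => (f p).1) ⊆
      (Finset.univ : Finset (Fin 6)) ×ˢ ((Finset.univ : Finset (Fin 3)) ×ˢ
        ((Finset.univ : Finset Bool) ×ˢ resSet r (K0 * L^2))) := by
    intro a ha
    obtain ⟨p, hp, rfl⟩ := Finset.mem_image.1 ha
    simp only [Finset.mem_product, Finset.mem_univ, true_and]
    exact (hf p hp).2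
  refine (Finset.card_le_card hsub).trans (le_of_eq ?_)
  rw [Finset.card_product, Finset.card_product, Finset.card_product]
  simp only [Finset.card_univ, Fintype.card_fin, Fintype.card_bool]
  ring

/-- **Main theorem.** -/
theorem main (r : ZMod 3) (ε : ℝ) (hε : 0 < ε) :
    ∃ X0 : ℕ, ∀ X : ℕ, X0 ≤ X → (X:ℝ)^(1 - ε) ≤
      (((Finset.Icc 1 X).filter
        (fun k => (cardFactors (3 * k^2 + 3 * k + 1) : ZMod 3) = r)).card : ℝ) := by
  set η : ℝ := min ε 1 / 4 with hη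
  have hη0 : 0 < η := by rw [hη]; positivity
  have hη1 : 4 * η ≤ 1 := by rw [hη]; have := min_le_right ε 1; linarith
  have hηε : 4 * η ≤ ε := by rw [hη]; have := min_le_left ε 1; linarith
  clear_value η
  obtain ⟨C, hC1, hC⟩ := divisor_bound (η / 2) (by positivity)
  have hK0 : (0:ℝ) < K0 := by exact_mod_cast K0_pos
  -- lower bound for `K = K0 * L^2`
  set c1 : ℝ := 1 / (432 * (C * 21) * K0) with hc1
  have hc10 : 0 < c1 := by positivity
  have hlow : ∀ L : ℕ, 1 ≤ L → c1 * ((K0 * L^2 : ℕ) : ℝ)^(1 - η) ≤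
      ((resSet r (K0 * L^2)).card : ℝ) := by
    intro L hL
    set K : ℕ := K0 * L^2 with hK
    have hK1 : 1 ≤ K := by
      rw [hK]; exact Nat.mul_pos K0_pos (by positivity)
    have hKR : (1:ℝ) ≤ K := by exact_mod_cast hK1
    have hKpos : (0:ℝ) < K := by linarith
    set D : ℝ := C * 21 * (K:ℝ)^η with hDdef
    have hD : ∀ k ≤ K, (3 * (3 * k^2 + 3 * k + 1)).divisors.card ≤ ⌊D⌋₊ := by
      intro k hk
      refine Nat.le_floor ?_
      refine (hC _ (by omega)).trans ?_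
      have hk' : (k:ℝ) ≤ K := by exact_mod_cast hk
      have hk0 : (0:ℝ) ≤ k := Nat.cast_nonneg k
      have h2 : ((3 * (3 * k^2 + 3 * k + 1) : ℕ) : ℝ) ≤ 21 * (K:ℝ)^2 := by
        push_cast
        have h3 : (k:ℝ)^2 ≤ (K:ℝ)^2 := pow_le_pow_left₀ hk0 hk' 2
        nlinarith
      have h5 : ((3 * (3 * k^2 + 3 * k + 1) : ℕ) : ℝ)^(η/2) ≤ 21 * (K:ℝ)^η := by
        calc ((3 * (3 * k^2 + 3 * k + 1) : ℕ) : ℝ)^(η/2) ≤ (21 * (K:ℝ)^2)^(η/2) :=
              Real.rpow_le_rpow (by positivity) h2 (by positivity)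
          _ = (21:ℝ)^(η/2) * ((K:ℝ)^2)^(η/2) := Real.mul_rpow (by norm_num) (by positivity)
          _ ≤ 21 * (K:ℝ)^η := by
              refine mul_le_mul ?_ ?_ (by positivity) (by norm_num)
              · calc (21:ℝ)^(η/2) ≤ (21:ℝ)^(1:ℝ) :=
                      Real.rpow_le_rpow_of_exponent_le (by norm_num) (by linarith)
                  _ = 21 := Real.rpow_one _
              · rw [← Real.rpow_natCast (K:ℝ) 2, ← Real.rpow_mul hKpos.le]
                apply le_of_eq; congr 1; push_cast; ring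
      rw [hDdef]
      calc C * ((3 * (3 * k^2 + 3 * k + 1) : ℕ) : ℝ)^(η/2) ≤ C * (21 * (K:ℝ)^η) :=
            mul_le_mul_of_nonneg_left h5 (by linarith)
        _ = _ := by ring
    have h1 := card_good_le r L ⌊D⌋₊ hD
    have h2 : ((good L).card : ℝ) ≤ 6 * D * (36 * ((resSet r K).card : ℝ)) := by
      have h3 : ((good L).card : ℝ) ≤ 6 * (⌊D⌋₊ : ℝ) * (36 * ((resSet r K).card : ℝ)) := by
        exact_mod_cast h1
      have h4 : (⌊D⌋₊ : ℝ) ≤ D := Nat.floor_le (by positivity)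
      refine h3.trans (mul_le_mul_of_nonneg_right (by linarith) (by positivity))
    have h3 := (card_good L).trans h2
    have h4 : (L:ℝ)^2 = K / K0 := by
      rw [hK]; push_cast; field_simp
    rw [h4] at h3
    have hKη : 0 < (K:ℝ)^η := Real.rpow_pos_of_pos hKpos _
    have h5 : (K:ℝ) = (K:ℝ)^(1-η) * (K:ℝ)^η := by
      rw [← Real.rpow_add hKpos]; simp
    have h6 : ((K:ℝ)^(1-η)) * (K:ℝ)^η ≤ (432 * (C * 21) * K0 * ((resSet r K).card : ℝ)) * (K:ℝ)^η := by
      rw [← h5]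
      rw [div_div, div_le_iff₀ (by positivity)] at h3
      refine h3.trans (le_of_eq ?_)
      rw [hDdef]; ring
    have h7 := le_of_mul_le_mul_right h6 hKη
    rw [hc1, one_div, inv_mul_le_iff₀ (by positivity)]
    exact h7
  -- pass to `X`
  have htend : Filter.Tendsto (fun X : ℕ => (c1 / 4) * (X:ℝ)^(3 * η)) Filter.atTop Filter.atTop :=
    Filter.Tendsto.const_mul_atTop (by positivity)
      ((tendsto_rpow_atTop (by positivity)).comp tendsto_natCast_atTop_atTop)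
  obtain ⟨X1, hX1⟩ := Filter.eventually_atTop.1 (htend.eventually_ge_atTop 2)
  refine ⟨max X1 K0, fun X hX => ?_⟩
  have hXa := hX1 X ((le_max_left _ _).trans hX)
  have hXb : K0 ≤ X := (le_max_right _ _).trans hX
  have hK0p := K0_pos
  obtain ⟨L, hL1, hLX, hXL⟩ : ∃ L : ℕ, 1 ≤ L ∧ K0 * L^2 ≤ X ∧ X ≤ 4 * (K0 * L^2) := by
    generalize K0 = K at hK0p hXb
    refine ⟨Nat.sqrt (X / K), ?_, ?_, ?_⟩
    · rw [Nat.le_sqrt]
      exact (Nat.one_le_div_iff hK0p).2 hXb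
    · have h1 : Nat.sqrt (X / K) * Nat.sqrt (X / K) ≤ X / K := Nat.sqrt_le _
      calc K * Nat.sqrt (X / K)^2 ≤ K * (X / K) := Nat.mul_le_mul_left _ (by rw [sq]; exact h1)
        _ ≤ X := Nat.mul_div_le _ _
    · have h1 : X / K < (Nat.sqrt (X / K) + 1) * (Nat.sqrt (X / K) + 1) := Nat.lt_succ_sqrt _
      have h0 : 1 ≤ Nat.sqrt (X / K) := by
        rw [Nat.le_sqrt]
        exact (Nat.one_le_div_iff hK0p).2 hXb
      generalize Nat.sqrt (X / K) = s at h1 h0
      have h2 : X < K * ((s+1)*(s+1)) := by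
        have h3 := (Nat.div_lt_iff_lt_mul hK0p).1 h1
        rw [mul_comm]; exact h3
      have h4 : (s+1)*(s+1) ≤ 4 * s^2 := by nlinarith
      calc X ≤ K * ((s+1)*(s+1)) := h2.le
        _ ≤ K * (4 * s^2) := Nat.mul_le_mul_left _ h4
        _ = 4 * (K * s^2) := by ring
  have h1 := hlow L hL1
  set K : ℕ := K0 * L^2 with hK
  have hX0 : (0:ℝ) < X := by exact_mod_cast (by omega : 0 < X)
  have hX1' : (1:ℝ) ≤ X := by exact_mod_cast (by omega : 1 ≤ X)
  have hKX : (X:ℝ) ≤ 4 * K := by exact_mod_cast hXL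
  have hK0' : (0:ℝ) ≤ K := Nat.cast_nonneg K
  have h2 : (X:ℝ)^(1 - η) ≤ 4 * (K:ℝ)^(1 - η) := by
    calc (X:ℝ)^(1-η) ≤ (4 * (K:ℝ))^(1-η) := Real.rpow_le_rpow hX0.le hKX (by linarith)
      _ = (4:ℝ)^(1-η) * (K:ℝ)^(1-η) := Real.mul_rpow (by norm_num) (by positivity)
      _ ≤ 4 * (K:ℝ)^(1 - η) := by
          refine mul_le_mul_of_nonneg_right ?_ (by positivity)
          calc (4:ℝ)^(1-η) ≤ (4:ℝ)^(1:ℝ) :=
                  Real.rpow_le_rpow_of_exponent_le (by norm_num) (by linarith)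
              _ = 4 := Real.rpow_one _
  have h3 : (c1 / 4) * (X:ℝ)^(1-η) ≤ ((resSet r K).card : ℝ) := by
    refine le_trans ?_ h1
    calc (c1 / 4) * (X:ℝ)^(1-η) ≤ (c1/4) * (4 * (K:ℝ)^(1 - η)) :=
          mul_le_mul_of_nonneg_left h2 (by positivity)
      _ = _ := by ring
  have h4 : (X:ℝ)^(1-η) = (X:ℝ)^(3*η) * (X:ℝ)^(1-4*η) := by
    rw [← Real.rpow_add hX0]; congr 1; ring
  have h5 : 1 ≤ (X:ℝ)^(1-4*η) := Real.one_le_rpow hX1' (by linarith)
  have h6 : 2 * (X:ℝ)^(1-4*η) ≤ ((resSet r K).card : ℝ) := by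
    refine le_trans ?_ h3
    rw [h4, ← mul_assoc]
    exact mul_le_mul_of_nonneg_right hXa (by linarith)
  have h7 : (X:ℝ)^(1-ε) ≤ (X:ℝ)^(1-4*η) := Real.rpow_le_rpow_of_exponent_le hX1' (by linarith)
  have h8 : ((resSet r K).card : ℝ) ≤ (((Finset.Icc 1 X).filter
      (fun k => (cardFactors (3 * k^2 + 3 * k + 1) : ZMod 3) = r)).card : ℝ) + 1 := by
    have hsub : resSet r K ⊆ insert 0 ((Finset.Icc 1 X).filter
        (fun k => (cardFactors (3 * k^2 + 3 * k + 1) : ZMod 3) = r)) := by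
      intro k hk
      obtain ⟨a, b⟩ := Finset.mem_filter.1 hk
      have := Finset.mem_range.1 a
      rcases Nat.eq_zero_or_pos k with h | h
      · rw [h]; exact Finset.mem_insert_self _ _
      · refine Finset.mem_insert_of_mem (Finset.mem_filter.2 ⟨Finset.mem_Icc.2 ⟨h, by omega⟩, b⟩)
    have := (Finset.card_le_card hsub).trans (Finset.card_insert_le _ _)
    exact_mod_cast this
  linarith

end Pool.Agent.H55.OmegaThree
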